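import Mathlib
import Pool.Agent.Q175.FreeKRSub

/-!
# A free topological group that is a `k_R`-space with a closed subgroup that is not

`X` is the Cantor cube of weight continuum with one point removed. Continuous real functions on
the finite powers of `X` depend on countably many coordinates, so that every real function on
`F(X)` which is continuous on the sets of words with given signs factors through
`F({0,1}^ℝ)`, a `k_ω`-group; hence `F(X)` is a `k_R`-space. The closed subgroup generated by a
sequence converging (in the cube) to the removed point is not a `k_R`-space.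
-/

set_option autoImplicit false

namespace Pool.Agent.Results.MP_02575e_gt.ClosedSubgroupNotKR

open Set Topology Filter

/-- `Y` is a `k_R`-space: every real function on `Y` whose restrictions to compact sets are
continuous is continuous. -/
def IsKR (Y : Type) [TopologicalSpace Y] : Prop :=
  ∀ f : Y → ℝ, (∀ K : Set Y, IsCompact K → ContinuousOn f K) → Continuous f

/-- The given topology makes the free group on the set `X` the free topological group (in the sense
of Markov) of the space `X`. -/
structure IsMarkovFree (X : Type) [TopologicalSpace X] [TopologicalSpace (FreeGroup X)] :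
    Prop where
  isTopologicalGroup : IsTopologicalGroup (FreeGroup X)
  isEmbedding : IsEmbedding (FreeGroup.of : X → FreeGroup X)
  exists_extension : ∀ (G : Type) [Group G] [TopologicalSpace G] [IsTopologicalGroup G]
    (f : X → G), Continuous f →
    ∃! φ : FreeGroup X →* G, Continuous φ ∧ ∀ x, φ (FreeGroup.of x) = f x

theorem result : ∃ (X : Type) (_ : TopologicalSpace X) (_ : TopologicalSpace (FreeGroup X)),
    T35Space X ∧ T35Space (FreeGroup X) ∧ IsMarkovFree X ∧ IsKR (FreeGroup X) ∧
    ∃ H : Subgroup (FreeGroup X), IsClosed (H : Set (FreeGroup X)) ∧ ¬ IsKR H := by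
  let a : ℕ → ℝ := fun n => (n : ℝ)
  have ha : Function.Injective a := Nat.cast_injective
  let tT : TopologicalSpace (FreeGroup (Q175.PunctCube.T ℝ)) :=
    (sInf {t : GroupTopology (FreeGroup (Q175.PunctCube.T ℝ)) |
      @Continuous _ _ inferInstance t.toTopologicalSpace FreeGroup.of}).toTopologicalSpace
  let tK : TopologicalSpace (FreeGroup (ℝ → Bool)) :=
    (sInf {t : GroupTopology (FreeGroup (ℝ → Bool)) |
      @Continuous _ _ inferInstance t.toTopologicalSpace FreeGroup.of}).toTopologicalSpace
  have hT : Q177.FreeTop.IsFreeTop (Q175.PunctCube.T ℝ) := Q177.FreeTop.isFreeTop_sInf _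
  have hK : Q177.FreeTop.IsFreeTop (ℝ → Bool) := Q177.FreeTop.isFreeTop_sInf _
  have := hT.grp
  have := hK.grp
  have := Q175.FreeKRSub.t2_cube hK
  have hι : Continuous (FreeGroup.map (Subtype.val : Q175.PunctCube.T ℝ → ℝ → Bool)) :=
    Q175.FreeKO.continuous_map hT hK.cont continuous_subtype_val
  have hinj : Function.Injective
      (FreeGroup.map (Subtype.val : Q175.PunctCube.T ℝ → ℝ → Bool)) :=
    FreeGroup.map_injective Subtype.val_injective
  have hT2 : T2Space (FreeGroup (Q175.PunctCube.T ℝ)) := T2Space.of_injective_continuous hinj hι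
  have hcr : CompletelyRegularSpace (FreeGroup (Q175.PunctCube.T ℝ)) :=
    CompletelyRegularSpace.of_exists_uniformSpace
      ⟨IsTopologicalGroup.rightUniformSpace (FreeGroup (Q175.PunctCube.T ℝ)), rfl⟩
  have hofK : IsEmbedding (FreeGroup.of : (ℝ → Bool) → FreeGroup (ℝ → Bool)) :=
    (hK.cont.isClosedEmbedding FreeGroup.of_injective).isEmbedding
  have hofT : IsEmbedding (FreeGroup.of : Q175.PunctCube.T ℝ →
      FreeGroup (Q175.PunctCube.T ℝ)) := by
    refine IsEmbedding.of_comp hT.cont hι ?_
    have : FreeGroup.map (Subtype.val : Q175.PunctCube.T ℝ → ℝ → Bool) ∘ FreeGroup.of =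
        FreeGroup.of ∘ Subtype.val := by
      funext x
      simp
    rw [this]
    exact hofK.comp IsEmbedding.subtypeVal
  refine ⟨Q175.PunctCube.T ℝ, inferInstance, tT, inferInstance, {}, ⟨hT.grp, hofT, ?_⟩,
    Q175.FreeKRSub.kR hT hK, (FreeGroup.map (Q175.FreeKRSub.y a)).range,
    Q175.FreeKRSub.isClosed_H hT hK ha, Q175.FreeKRSub.not_kR_H hT hK ha⟩
  intro G _ _ _ f hf
  refine ⟨FreeGroup.lift f, ⟨hT.continuous_lift f hf, fun x => by simp⟩, ?_⟩
  rintro φ ⟨-, hφ⟩
  ext x
  rw [hφ x]
  simp

end Pool.Agent.Results.MP_02575e_gt.ClosedSubgroupNotKR
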